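import Pool.Agent.MP_74e98a_nt.H93.Defs

/-! A smooth step together with the Laplace transform of its derivative. -/

namespace Pool.Agent.MP_74e98a_nt.H78

open Complex MeasureTheory Set Pool.Agent.MP_74e98a_nt.H75 Pool.Agent.MP_74e98a_nt.H93
open scoped FourierTransform ContDiff

/-- the bump -/
noncomputable def bump : ContDiffBump (0 : ℝ) := ⟨1 / 2, 1, by norm_num, by norm_num⟩

/-- the normalised bump -/
noncomputable def bb : ℝ → ℝ := bump.normed volume

theorem bb_smooth : ContDiff ℝ ∞ bb := bump.contDiff_normed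

theorem bb_cont : Continuous bb := bump.continuous_normed

theorem bb_nonneg (u : ℝ) : 0 ≤ bb u := bump.nonneg_normed u

theorem bb_neg (u : ℝ) : bb (-u) = bb u := bump.normed_neg u

theorem bb_int : ∫ u, bb u = 1 := bump.integral_normed

theorem bb_integrable : Integrable bb := bump.integrable_normed

theorem bb_supp : HasCompactSupport bb := bump.hasCompactSupport_normed

theorem bb_zero {u : ℝ} (hu : 1 ≤ |u|) : bb u = 0 := by
  by_contra h
  have : u ∈ Function.support bb := h
  rw [bb, bump.support_normed_eq] at this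
  simp only [bump, Metric.mem_ball, dist_zero_right, Real.norm_eq_abs] at this
  linarith

/-- the step -/
noncomputable def ph (l : ℝ) : ℝ := ∫ u in (-1 : ℝ)..l, bb u

theorem ph_deriv (l : ℝ) : HasDerivAt ph (bb l) l :=
  (bb_cont.integral_hasStrictDerivAt (-1) l).hasDerivAt

theorem ph_zero (x : ℝ) (hx : x ≤ -1) : ph x = 0 := by
  unfold ph
  rw [intervalIntegral.integral_congr (g := fun _ => 0), intervalIntegral.integral_zero]
  intro u hu
  rw [uIcc_of_ge hx] at hu
  exact bb_zero (le_abs.mpr (Or.inr (by linarith [hu.2])))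

theorem ph_one (x : ℝ) (hx : 1 ≤ x) : ph x = 1 := by
  unfold ph
  rw [intervalIntegral.integral_eq_integral_of_support_subset, bb_int]
  intro u hu
  by_contra h
  apply hu
  apply bb_zero
  rw [mem_Ioc, not_and_or, not_lt, not_le] at h
  rcases h with h | h
  · exact le_abs.mpr (Or.inr (by linarith))
  · exact le_abs.mpr (Or.inl (by linarith))

theorem ph_mono : Monotone ph :=
  monotone_of_deriv_nonneg (fun l => (ph_deriv l).differentiableAt) fun l => by
    rw [(ph_deriv l).deriv]; exact bb_nonneg l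

theorem ph_step : Step ph where
  smooth := by
    have h : deriv ph = bb := funext fun l => (ph_deriv l).deriv
    have : ContDiff ℝ (1 + 1) ph := by
      rw [contDiff_succ_iff_deriv, h]
      exact ⟨fun l => (ph_deriv l).differentiableAt, by simp, bb_smooth.of_le (by simp)⟩
    simpa [one_add_one_eq_two] using this
  zero := ph_zero
  one := ph_one
  nonneg x := by
    rw [← ph_zero (min x (-1)) (min_le_right _ _)]
    exact ph_mono (min_le_left _ _)
  le_one x := by
    rw [← ph_one (max x 1) (le_max_right _ _)]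
    exact ph_mono (le_max_left _ _)

/-- the Laplace transform of the bump -/
noncomputable def GG (z : ℂ) : ℂ := ∫ u : ℝ, (bb u : ℂ) * cexp (-(z * u))

theorem norm_le (z : ℂ) (u : ℝ) : ‖(bb u : ℂ) * cexp (-(z * u))‖ ≤ bb u * Real.exp |z.re| := by
  rw [norm_mul, norm_real, Real.norm_of_nonneg (bb_nonneg u), norm_exp]
  by_cases hu : 1 ≤ |u|
  · simp [bb_zero hu]
  · refine mul_le_mul_of_nonneg_left (Real.exp_le_exp.mpr ?_) (bb_nonneg u)
    have : (-(z * u)).re = -(z.re * u) := by simp
    rw [this]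
    refine (neg_le_abs _).trans ?_
    rw [abs_mul]
    exact mul_le_of_le_one_right (abs_nonneg _) (not_le.mp hu).le

theorem cont_F (z : ℂ) : Continuous fun u : ℝ => (bb u : ℂ) * cexp (-(z * u)) := by
  have := bb_cont
  fun_prop

theorem GG_diff : Differentiable ℂ GG := by
  intro z₀
  have := bb_cont
  refine (hasDerivAt_integral_of_dominated_loc_of_deriv_le (μ := volume)
    (F := fun (z : ℂ) (u : ℝ) => (bb u : ℂ) * cexp (-(z * u)))
    (F' := fun (z : ℂ) (u : ℝ) => (bb u : ℂ) * (cexp (-(z * u)) * (-(u : ℂ))))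
    (bound := fun u => bb u * Real.exp (‖z₀‖ + 1)) (Metric.ball_mem_nhds z₀ one_pos)
    (Filter.Eventually.of_forall fun z => (cont_F z).aestronglyMeasurable) ?_ ?_ ?_
    (bb_integrable.mul_const _) ?_).2.differentiableAt
  · exact (bb_integrable.mul_const _).mono' (cont_F z₀).aestronglyMeasurable
      (Filter.Eventually.of_forall (norm_le z₀))
  · exact Continuous.aestronglyMeasurable (by fun_prop)
  · refine Filter.Eventually.of_forall fun u z hz => ?_
    by_cases hu : 1 ≤ |u|
    · simp [bb_zero hu]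
    · rw [← mul_assoc, norm_mul, norm_neg, norm_real, Real.norm_eq_abs]
      refine (mul_le_of_le_one_right (norm_nonneg _) (not_le.mp hu).le).trans
        ((norm_le z u).trans (mul_le_mul_of_nonneg_left (Real.exp_le_exp.mpr ?_) (bb_nonneg u)))
      refine (abs_re_le_norm z).trans ?_
      have := norm_sub_norm_le z z₀
      rw [Metric.mem_ball, dist_eq_norm] at hz
      linarith
  · refine Filter.Eventually.of_forall fun u z _ => ?_
    have : HasDerivAt (fun z : ℂ => -(z * u)) (-(u : ℂ)) z := by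
      simpa using ((hasDerivAt_id z).mul_const (u : ℂ)).fun_neg
    exact this.cexp.const_mul _

theorem GG_even (z : ℂ) : GG (-z) = GG z := by
  unfold GG
  rw [← integral_neg_eq_self]
  congr 1
  ext u
  simp [bb_neg]

theorem GG_conj (z : ℂ) : GG ((starRingEnd ℂ) z) = (starRingEnd ℂ) (GG z) := by
  unfold GG
  rw [← integral_conj]
  congr 1
  ext u
  simp [← exp_conj]

theorem GG_zero : GG 0 = 1 := by
  unfold GG
  simp only [zero_mul, neg_zero, exp_zero, mul_one]
  rw [integral_complex_ofReal, bb_int]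
  simp

theorem GG_bound (z : ℂ) : ‖GG z‖ ≤ Real.exp |z.re| := by
  refine (norm_integral_le_of_norm_le (bb_integrable.mul_const _)
    (Filter.Eventually.of_forall (norm_le z))).trans ?_
  rw [integral_mul_const, bb_int, one_mul]

/-- the damped bump -/
noncomputable def hh (u : ℝ) : ℂ := (bb u : ℂ) * cexp (-(3 / 2 * u))

theorem hh_supp : HasCompactSupport hh := by
  unfold hh
  exact (bb_supp.comp_left (g := fun x : ℝ => (x : ℂ)) (by simp)).mul_right

theorem hh_smooth : ContDiff ℝ ∞ hh := by
  unfold hh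
  refine (ofRealCLM.contDiff.comp bb_smooth).mul ?_
  have : ContDiff ℝ ∞ fun u : ℝ => (u : ℂ) := ofRealCLM.contDiff
  exact ((contDiff_const.mul this).neg).cexp

/-- the damped bump as a Schwartz function -/
noncomputable def hs : SchwartzMap ℝ ℂ := hh_supp.toSchwartzMap hh_smooth

theorem fourier_hh (x : ℝ) : 𝓕 hh x = GG (zz (2 * Real.pi * x)) := by
  rw [Real.fourier_real_eq_integral_exp_smul]
  unfold GG hh zz
  congr 1
  ext u
  rw [smul_eq_mul, mul_left_comm, ← exp_add]
  congr 2
  push_cast
  ring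

theorem GG_decay (m : ℕ) : ∃ C : ℝ, ∀ y : ℝ, ‖GG (zz y)‖ * (1 + |y|) ^ m ≤ C := by
  have hpi := Real.pi_gt_three
  refine ⟨(2 * Real.pi) ^ m * (2 ^ m * (Finset.Iic (m, 0)).sup
    (fun m : ℕ × ℕ => SchwartzMap.seminorm ℂ m.1 m.2) (𝓕 hs)), fun y => ?_⟩
  have h := SchwartzMap.one_add_le_sup_seminorm_apply (𝕜 := ℂ) (m := (m, 0)) (k := m) (n := 0)
    le_rfl le_rfl (𝓕 hs) (y / (2 * Real.pi))
  rw [norm_iteratedFDeriv_zero] at h
  have e : (𝓕 hs) (y / (2 * Real.pi)) = GG (zz y) := by
    have : (𝓕 hs) (y / (2 * Real.pi)) = 𝓕 hh (y / (2 * Real.pi)) := rfl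
    rw [this, fourier_hh]
    congr 2
    field_simp
  rw [e] at h
  refine le_trans ?_ (mul_le_mul_of_nonneg_left h (by positivity))
  rw [← mul_assoc, ← mul_pow, mul_comm]
  gcongr
  rw [norm_div, Real.norm_eq_abs, Real.norm_of_nonneg (by positivity : 0 ≤ 2 * Real.pi), mul_add,
    mul_div_cancel₀ _ (by positivity)]
  linarith

/-- the damped step -/
noncomputable def ff (l : ℝ) : ℂ := (ph l : ℂ) * cexp (-(3 / 2 * l))

theorem ff_deriv (l : ℝ) : HasDerivAt ff (hh l - 3 / 2 * ff l) l := by
  have h1 : HasDerivAt (fun l : ℝ => (ph l : ℂ)) (bb l : ℂ) l := (ph_deriv l).ofReal_comp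
  have h2 : HasDerivAt (fun l : ℝ => -(3 / 2 * (l : ℂ))) (-(3 / 2)) l := by
    simpa using (((hasDerivAt_id l).ofReal_comp).const_mul (3 / 2 : ℂ)).fun_neg
  have h3 : hh l - 3 / 2 * ff l = (bb l : ℂ) * cexp (-(3 / 2 * l)) +
      (ph l : ℂ) * (cexp (-(3 / 2 * l)) * (-(3 / 2))) := by
    unfold hh ff
    ring
  rw [h3]
  exact h1.fun_mul h2.cexp

theorem ff_cont : Continuous ff :=
  continuous_iff_continuousAt.mpr fun l => (ff_deriv l).continuousAt

theorem ff_integrable : Integrable ff := by
  rw [← integrableOn_univ, ← Iic_union_Ioi (a := (-1 : ℝ)), integrableOn_union]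
  constructor
  · refine integrableOn_zero.congr_fun (fun x hx => ?_) measurableSet_Iic
    simp [ff, ph_zero x hx]
  · refine (exp_neg_integrableOn_Ioi (-1) (b := 3 / 2) (by norm_num)).mono'
      ff_cont.aestronglyMeasurable (Filter.Eventually.of_forall fun x => ?_)
    rw [ff, norm_mul, norm_real, Real.norm_of_nonneg (ph_step.nonneg x), norm_exp]
    have : (-(3 / 2 * (x : ℂ))).re = -(3 / 2) * x := by simp
    rw [this]
    exact mul_le_of_le_one_left (Real.exp_pos _).le (ph_step.le_one x)

theorem zz_norm (y : ℝ) : 1 ≤ ‖zz y‖ := by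
  refine le_trans ?_ (re_le_norm _)
  simp [zz]
  norm_num

theorem zz_ne (y : ℝ) : zz y ≠ 0 := by
  intro h
  have := zz_norm y
  rw [h, norm_zero] at this
  linarith

theorem fourier_ff (x : ℝ) :
    𝓕 ff x = GG (zz (2 * Real.pi * x)) / zz (2 * Real.pi * x) := by
  have hi : Integrable hh := hs.integrable
  have hd : deriv ff = fun l => hh l - 3 / 2 * ff l := funext fun l => (ff_deriv l).deriv
  have h := congrFun (Real.fourier_deriv ff_integrable (fun l => (ff_deriv l).differentiableAt)
    (hd ▸ hi.sub (ff_integrable.const_mul _))) x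
  have h2 : 𝓕 (deriv ff) x = 𝓕 hh x - 3 / 2 * 𝓕 ff x := by
    rw [hd, Real.fourier_eq, Real.fourier_eq, Real.fourier_eq, ← integral_const_mul,
      ← integral_sub ((Real.fourierIntegral_convergent_iff x).mpr hi)
        (((Real.fourierIntegral_convergent_iff x).mpr ff_integrable).const_mul _)]
    congr 1
    ext u
    simp only [Circle.smul_def, smul_eq_mul]
    ring
  rw [eq_div_iff (zz_ne _), ← fourier_hh]
  rw [h2, smul_eq_mul] at h
  unfold zz
  push_cast
  linear_combination -h

theorem fourier_ff_integrable : Integrable (𝓕 ff) := by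
  have hi : Integrable (𝓕 hh) := (𝓕 hs).integrable
  refine hi.norm.mono' (VectorFourier.fourierIntegral_continuous Real.continuous_fourierChar
    (by exact continuous_inner) ff_integrable).aestronglyMeasurable
    (Filter.Eventually.of_forall fun x => ?_)
  rw [fourier_ff, fourier_hh, norm_div]
  exact div_le_self (norm_nonneg _) (zz_norm _)

theorem GG_inv (l : ℝ) :
    ∫ y : ℝ, GG (zz y) * cexp (zz y * l) / zz y = 2 * Real.pi * ph l := by
  have hpi := Real.pi_pos
  have h := congrFun (ff_cont.fourierInv_fourier_eq ff_integrable fourier_ff_integrable) l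
  rw [Real.fourierInv_eq'] at h
  have h2 := Measure.integral_comp_mul_left
    (fun y : ℝ => GG (zz y) * cexp (zz y * l) / zz y) (2 * Real.pi)
  have h3 : ∫ x : ℝ, GG (zz (2 * Real.pi * x)) * cexp (zz (2 * Real.pi * x) * l) /
      zz (2 * Real.pi * x) = ph l := by
    have : (ph l : ℂ) = cexp (3 / 2 * l) * ff l := by
      rw [ff, mul_left_comm, ← exp_add]; simp
    rw [this, ← h, ← integral_const_mul]
    congr 1
    ext x
    rw [fourier_ff, smul_eq_mul, ← mul_assoc, ← exp_add]
    have : zz (2 * Real.pi * x) * l = 3 / 2 * l + ((2 * Real.pi * inner ℝ x l : ℝ) : ℂ) * I := by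
      simp only [zz, RCLike.inner_apply, conj_trivial]
      push_cast
      ring
    rw [this]
    ring
  rw [h3, abs_of_pos (by positivity), real_smul] at h2
  rw [h2, ← mul_assoc]
  push_cast
  have : (Real.pi : ℂ) ≠ 0 := by exact_mod_cast hpi.ne'
  rw [mul_inv_cancel₀ (mul_ne_zero two_ne_zero this), one_mul]

theorem kern : KernStmt :=
  ⟨ph, GG, ph_step, GG_diff, GG_even, GG_conj, GG_zero, GG_bound, GG_decay, GG_inv⟩

end Pool.Agent.MP_74e98a_nt.H78
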